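import Pool.Agent.Lib.MP_3ba922_nt.SB.Loc

set_option autoImplicit false

open Pool.Agent.Lib.MP_3ba922_nt Filter Topology

theorem Pool.Agent.Results.MP_3ba922_nt.BoundaryConstant.result :
    ∀ c₀ : ℂ, c₀.re = -1 → c₀.im ≠ 0 → ∃ K : ℝ, 0 < K ∧
      Tendsto (fun x : ℕ => ∏ p ∈ Nat.primesBelow x,
        (⨅ a : ℕ, ‖sigmaC c₀ (p ^ a)‖) / (1 - 1 / (p : ℝ)) ^ (1 / Real.pi)) atTop (𝓝 K) ∧
      Tendsto (fun c : ℂ => (1 - rad c) / (-c.re - 1) ^ (1 / Real.pi))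
        (𝓝[{c : ℂ | c.re < -1}] c₀) (𝓝 K) := by
  intro c₀ h1 h2
  obtain ⟨K, hK, a, b⟩ := Pool.Agent.Lib.MP_3ba922_nt.SB.sharp (abs_pos.mpr h2)
  refine ⟨K, hK, a.congr fun x => Finset.prod_congr rfl fun p hp => ?_,
    (b.comp (tendsto_param c₀ h1)).congr fun c => ?_⟩
  · rw [Pool.Agent.Lib.MP_3ba922_nt.SB.mm_eq c₀ h1 (Nat.prime_of_mem_primesBelow hp),
      Real.rpow_neg_one, ← one_div]
  · simp only [Function.comp, neg_neg, rad_abs]
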