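import Pool.Agent.Lib.MP_3ba922_nt.SB.Cor4

set_option autoImplicit false

open Pool.Agent.Lib.MP_3ba922_nt Pool.Agent.Lib.MP_3ba922_nt.SB Filter Topology

theorem Pool.Agent.Results.MP_3ba922_nt.CornerProfile.result :
    (∀ l : ℝ, 0 < l → 0 < prof l ∧ prof l < 1) ∧
      Tendsto (fun c : ℂ => rad c - prof ((-c.re - 1) / |c.im|))
        (𝓝[{c : ℂ | c.re < -1 ∧ c.im ≠ 0}] (-1)) (𝓝 0) := by
  refine ⟨fun l hl => prof_range hl, (corner.comp (f := fun c : ℂ => (-c.re, |c.im|))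
    (tendsto_nhdsWithin_iff.mpr ⟨?_, eventually_nhdsWithin_of_forall fun c hc =>
      ⟨show 1 < -c.re from lt_neg_of_lt_neg hc.1, abs_pos.mpr hc.2⟩⟩)).congr fun c => ?_⟩
  · have c : Continuous fun c : ℂ => (-c.re, |c.im|) := by fun_prop
    simpa using (c.tendsto (-1)).mono_left nhdsWithin_le_nhds
  · simp only [Function.comp, neg_neg, rad_abs]
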