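import Pool.Agent.Lib.MP_3ba922_nt.Asym

set_option autoImplicit false

open Pool.Agent.Lib.MP_3ba922_nt

theorem Pool.Agent.Results.MP_3ba922_nt.NearRealAxis.result :
    ∀ δ : ℝ, 0 < δ → ∀ T ε : ℝ, 0 < ε → ∃ L : ℝ, ∀ c : ℂ, c.re ≤ -1 - δ → c.im ≠ 0 →
      |c.im| ≤ T → L * |c.im| ≤ -c.re →
        |Real.log (rad c) / (c.re * (c.re + 1) / |c.im|) + Real.pi| ≤ ε := by
  intro δ hδ T ε hε
  obtain ⟨L, hL⟩ := asym δ hδ T ε hε
  refine ⟨L, fun c h1 h2 h3 h4 => ?_⟩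
  have ht := abs_pos.mpr h2
  have h := hL (-c.re) |c.im| (by linarith) ht h3 h4
  rw [neg_neg, rad_abs, show -c.re * (-c.re - 1) = c.re * (c.re + 1) by ring] at h
  obtain ⟨hlo, hhi⟩ := h
  have hA : 0 < c.re * (c.re + 1) / |c.im| :=
    div_pos (mul_pos_of_neg_of_neg (by linarith) (by linarith)) ht
  have hr : 0 < rad c := lt_of_lt_of_le (Real.exp_pos _) hlo
  rw [← Real.le_log_iff_exp_le hr, mul_div_assoc] at hlo
  rw [← Real.log_le_iff_le_exp hr, mul_div_assoc] at hhi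
  have a1 := (le_div_iff₀ hA).mpr hlo
  have a2 := (div_le_iff₀ hA).mpr hhi
  rw [abs_le]
  constructor <;> linarith
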