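import Pool.Agent.Lib.MP_3ba922_nt.Sharp7

set_option autoImplicit false

open Pool.Agent.Lib.MP_3ba922_nt Filter Topology

theorem Pool.Agent.Results.MP_3ba922_nt.SharpNearAxis.result :
    ∀ c₀ : ℝ, c₀ < -1 → Tendsto (fun c : ℂ => rad c /
      (Real.exp (-c.re - 1) * |c.im| ^ (-c.re + 1)
        * Real.exp (-(Real.pi * (c.re * (c.re + 1))) / |c.im|)
        / (Real.pi ^ (-c.re) * (c.re * (c.re + 1)) ^ (-c.re + 1))))
      (𝓝[{c : ℂ | c.im ≠ 0}] (c₀ : ℂ)) (𝓝 1) := by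
  intro c₀ hc
  have hs : 1 < -c₀ := by linarith
  have hp : Tendsto (fun c : ℂ => (-c.re, |c.im|)) (𝓝[{c : ℂ | c.im ≠ 0}] (c₀ : ℂ)) (ll (-c₀)) := by
    refine tendsto_nhdsWithin_iff.mpr ⟨?_, eventually_nhdsWithin_of_forall fun c hc =>
      show 0 < |c.im| from abs_pos.mpr hc⟩
    have c : Continuous fun c : ℂ => (-c.re, |c.im|) := by fun_prop
    simpa using (c.tendsto c₀).mono_left nhdsWithin_le_nhds
  refine ((sharp hs).comp hp).congr' ?_
  filter_upwards [hp.eventually ev_pos, hp.eventually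
    (ev_lt (fun _ => 1) (fun q => q.1) (by fun_prop) (by fun_prop) hs)] with c h1 h2
  simp only [Function.comp, neg_neg]
  rw [rad_abs, FF_eq _ _ h2 h1, show -c.re * (-c.re - 1) = c.re * (c.re + 1) by ring]
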